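import Pool.Agent.Y773.D4.Def

/-!
# Project D4: the conductor of the twisted character is large and almost invariant
-/

set_option autoImplicit false

open NumberField

namespace Pool.Agent.Y185.D4

open Pool.Agent.Y773.D4

section
variable {K : Type} [Field K]

theorem mem_both {I J : Ideal (𝓞 K)} {x : 𝓞 K} (h : x ∈ I * J) : x ∈ I ∧ x ∈ J :=
  Submodule.mem_inf.1 (Ideal.mul_le_inf h)

theorem exists_inv {𝔮 : Ideal (𝓞 K)} {x : 𝓞 K} (h : IsCoprime (Ideal.span {x}) 𝔮) :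
    ∃ w : 𝓞 K, w * x - 1 ∈ 𝔮 := by
  obtain ⟨i, hi, j, hj, hij⟩ := Ideal.isCoprime_iff_exists.1 h
  obtain ⟨w, rfl⟩ := Ideal.mem_span_singleton'.1 hi
  refine ⟨w, ?_⟩
  rw [show w * x - 1 = -j by linear_combination hij]
  exact neg_mem hj

theorem cop_of_inv {𝔮 : Ideal (𝓞 K)} {x w : 𝓞 K} (h : w * x - 1 ∈ 𝔮) :
    IsCoprime (Ideal.span {x}) 𝔮 := by
  refine Ideal.isCoprime_iff_exists.2 ⟨w * x, Ideal.mem_span_singleton'.2 ⟨w, rfl⟩, 1 - w * x, ?_,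
    by ring⟩
  rw [← neg_sub]
  exact neg_mem h

theorem cop_one {𝔮 : Ideal (𝓞 K)} {x : 𝓞 K} (h : x - 1 ∈ 𝔮) :
    IsCoprime (Ideal.span {x}) 𝔮 := cop_of_inv (w := 1) (by rwa [one_mul])

theorem cop_congr {𝔮 : Ideal (𝓞 K)} {x y : 𝓞 K} (h : x - y ∈ 𝔮)
    (hy : IsCoprime (Ideal.span {y}) 𝔮) : IsCoprime (Ideal.span {x}) 𝔮 := by
  obtain ⟨w, hw⟩ := exists_inv hy
  refine cop_of_inv (w := w) ?_
  rw [show w * x - 1 = w * (x - y) + (w * y - 1) by ring]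
  exact add_mem (Ideal.mul_mem_left _ _ h) hw

theorem ne_zero_of_cop {𝔮 : Ideal (𝓞 K)} (h𝔮 : 𝔮 ≠ ⊤) {x : 𝓞 K}
    (h : IsCoprime (Ideal.span {x}) 𝔮) : x ≠ 0 := by
  rintro rfl
  rw [Ideal.span_singleton_eq_bot.mpr rfl, Ideal.isCoprime_iff_sup_eq, bot_sup_eq] at h
  exact h𝔮 h

/-- a character depends only on the residue class -/
theorem prim_congr {𝔣 : Ideal (𝓞 K)} {ψ : Ideal (𝓞 K) →*₀ ℂ}
    (h : ∀ x : 𝓞 K, x ≠ 0 → x - 1 ∈ 𝔣 → ψ (Ideal.span {x}) = 1) (ht : 𝔣 ≠ ⊤) {x y : 𝓞 K}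
    (hxy : x - y ∈ 𝔣) (hy : IsCoprime (Ideal.span {y}) 𝔣) :
    ψ (Ideal.span {x}) = ψ (Ideal.span {y}) := by
  have hx := cop_congr hxy hy
  obtain ⟨w, hw⟩ := exists_inv hx
  have hw' : w * y - 1 ∈ 𝔣 := by
    have : w * y - 1 = (w * x - 1) - w * (x - y) := by ring
    rw [this]
    exact sub_mem hw (Ideal.mul_mem_left _ _ hxy)
  have h1 := h (w * x) (ne_zero_of_cop ht (cop_one hw)) hw
  have h2 := h (w * y) (ne_zero_of_cop ht (cop_one hw')) hw'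
  rw [← Ideal.span_singleton_mul_span_singleton, map_mul] at h1 h2
  have h3 : ψ (Ideal.span {w}) ≠ 0 := by
    intro h4
    rw [h4, zero_mul] at h1
    exact zero_ne_one h1
  exact mul_left_cancel₀ h3 (h1.trans h2.symm)

theorem exists_prime [NumberField K] {I J : Ideal (𝓞 K)} (hJ : J ≠ ⊥) (h : ¬ IsCoprime I J) :
    ∃ Q : Ideal (𝓞 K), Prime Q ∧ Q ≠ ⊤ ∧ I ≤ Q ∧ J ≤ Q := by
  rw [Ideal.isCoprime_iff_sup_eq] at h
  obtain ⟨Q, hQ, hle⟩ := Ideal.exists_le_maximal _ h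
  have h1 : Q ≠ ⊥ := by
    rintro rfl
    exact hJ (le_bot_iff.1 (le_sup_right.trans hle))
  exact ⟨Q, Ideal.prime_of_isPrime h1 hQ.isPrime, hQ.ne_top, le_sup_left.trans hle,
    le_sup_right.trans hle⟩

end

theorem t_tws : St_TL → St_TWA → St_TWB → St_TWS := by
  intro hTL hA hB M _ _ _ σ Nm hR 𝔣 φ hφ
  have T := hTL M σ Nm hR
  have hφr : ∀ x : 𝓞 M, x ≠ 0 → x - 1 ∈ 𝔣 → φ (Ideal.span {x}) = 1 := by
    intro x hx0 hx1
    first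
      | exact hφ.ray x hx1 (T.tpos x)
      | exact hφ.ray x hx0 hx1 (T.tpos x)
  obtain ⟨R, hR0, hRf, hB'⟩ := hB M σ Nm hR 𝔣 φ hφ
  refine ⟨R, hR0, hRf, ?_⟩
  rintro q χ hχ ⟨p0, hp0, hp0q, hp0R⟩
  have hqu : ¬ IsUnit q := fun h => hp0.not_isUnit (isUnit_of_dvd_unit hp0q h)
  have hq0 : q ≠ 0 := hχ.q0
  have hupq : up M q ≠ ⊥ := by
    unfold up
    rw [Ne, Ideal.span_singleton_eq_bot]
    intro h
    exact hq0 (hR.inj (by rw [h, map_zero]))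
  rcases hA M σ Nm hR 𝔣 φ hφ q χ hχ hqu with h | ⟨𝔠, ψ, hct, hψ, hcq, hψφ⟩
  · exfalso
    obtain ⟨q1, hq1⟩ := hp0q
    obtain ⟨x, -, -, hx2, hx3, hx4⟩ := hB' q χ hχ p0 q1 hp0 hp0R hq1
    have h1 := h x hx2
    rw [hx3, one_mul] at h1
    exact hx4 h1
  have hψr : ∀ x : 𝓞 M, x ≠ 0 → x - 1 ∈ 𝔠 → ψ (Ideal.span {x}) = 1 := by
    intro x hx0 hx1
    first
      | exact hψ.ray x hx1 (T.tpos x)
      | exact hψ.ray x hx0 hx1 (T.tpos x)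
  have hE : ∀ p q1 : GaussianInt, Prime p → ¬ p ∣ (R : GaussianInt) → q = p * q1 →
      ¬ 𝔠 ∣ 𝔣 * up M q1 := by
    intro p q1 hp hpR hq hdvd
    obtain ⟨x, hx0, hx1, hx2, hx3, hx4⟩ := hB' q χ hχ p q1 hp hpR hq
    have h1 := hψr x hx0 (Ideal.dvd_iff_le.1 hdvd hx1)
    rw [hψφ _ hx2, hx3, one_mul] at h1
    exact hx4 h1
  refine ⟨𝔠, ψ, hct, hψ, hcq, hψφ, hE, ?_⟩
  by_contra hcon
  have hspR : cj σ (Ideal.span {(R : 𝓞 M)}) = Ideal.span {(R : 𝓞 M)} := by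
    rw [T.cj_span, map_natCast]
  have hg1 : 𝔠 ⊔ Ideal.span {(R : 𝓞 M)} * cj σ 𝔠 ∣ 𝔠 := Ideal.dvd_iff_le.2 le_sup_left
  have hg2 : 𝔠 ⊔ Ideal.span {(R : 𝓞 M)} * cj σ 𝔠 ≠ 𝔠 := by
    intro h
    apply hcon
    rw [Ideal.dvd_iff_le]
    calc Ideal.span {(R : 𝓞 M)} * cj σ 𝔠 ≤ 𝔠 ⊔ Ideal.span {(R : 𝓞 M)} * cj σ 𝔠 := le_sup_right
      _ = 𝔠 := h
  obtain ⟨x, hx1, -, hx2, hx3⟩ := hψ.prim _ hg1 hg2
  obtain ⟨c0, hc0, d, hd, hcd⟩ := Submodule.mem_sup.1 hx1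
  set y : 𝓞 M := 1 + d with hy
  have hyx : y - x ∈ 𝔠 := by
    rw [show y - x = -c0 by rw [hy]; linear_combination hcd]
    exact neg_mem hc0
  have hy1 : y - 1 = d := by rw [hy]; ring
  have hyc : IsCoprime (Ideal.span {y}) 𝔠 := cop_congr hyx hx2
  have hψy : ψ (Ideal.span {y}) = ψ (Ideal.span {x}) := prim_congr hψr hct hyx hx2
  obtain ⟨hdR, hdc⟩ := mem_both hd
  have hRf' : Ideal.span {(R : 𝓞 M)} ≤ 𝔣 := (Ideal.span_singleton_le_iff_mem 𝔣).2 hRf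
  have hyf1 : y - 1 ∈ 𝔣 := by
    rw [hy1]
    exact hRf' hdR
  have hyq : IsCoprime (Ideal.span {y}) (up M q) := by
    by_contra hnc
    obtain ⟨Q, hQ, hQt, hQy, hQq⟩ := exists_prime hupq hnc
    have hyQ : y ∈ Q := hQy (Ideal.mem_span_singleton_self y)
    have hone : ¬ d ∈ Q := by
      intro h
      apply hQt
      rw [Ideal.eq_top_iff_one, show (1 : 𝓞 M) = y - d by rw [hy]; ring]
      exact sub_mem hyQ h
    have hRQ : ¬ Ideal.span {(R : 𝓞 M)} ≤ Q := fun h => hone (h hdR)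
    obtain ⟨p, hp, hQp, hpz⟩ := T.ovr Q hQ
    obtain ⟨q1, hq1⟩ := hpz q (Ideal.dvd_iff_le.2 hQq)
    have hpR : ¬ p ∣ (R : GaussianInt) := by
      intro h
      apply hRQ
      have h1 : Q ∣ up M (R : GaussianInt) := hQp.trans ((T.dvd p R).2 h)
      rw [Ideal.dvd_iff_le] at h1
      unfold up at h1
      rwa [map_natCast] at h1
    have hE1 := hE p q1 hp hpR hq1
    have hnc2 : ¬ IsCoprime 𝔠 (up M p) := by
      intro h
      apply hE1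
      rw [hq1, T.up_mul, mul_left_comm] at hcq
      exact h.dvd_of_dvd_mul_left hcq
    have hupp : up M p ≠ ⊥ := by
      unfold up
      rw [Ne, Ideal.span_singleton_eq_bot]
      intro h
      exact hp.ne_zero (hR.inj (by rw [h, map_zero]))
    obtain ⟨P, hP, hPt, hPc, hPp⟩ := exists_prime hupp hnc2
    rcases T.above p hp P Q hP hQ (Ideal.dvd_iff_le.2 hPp) hQp with h | h
    · apply hPt
      rw [Ideal.isCoprime_iff_sup_eq] at hyc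
      rw [← top_le_iff, ← hyc]
      exact sup_le (h ▸ hQy) hPc
    · apply hone
      have h1 := Ideal.dvd_iff_le.1 (T.cj_dvd P 𝔠 (Ideal.dvd_iff_le.2 hPc))
      rw [h]
      exact h1 hdc
  have hyfq : IsCoprime (Ideal.span {y}) (𝔣 * up M q) := IsCoprime.mul_right (cop_one hyf1) hyq
  have hy0 : y ≠ 0 := ne_zero_of_cop hct hyc
  have e1 : ψ (Ideal.span {y}) = chI χ (Nm (Ideal.span {y})) := by
    rw [hψφ _ hyfq, hφr y hy0 hyf1, one_mul]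
  -- the conjugate
  set y' : 𝓞 M := sg σ y with hy'
  have hsd : sg σ d ∈ Ideal.span {(R : 𝓞 M)} * 𝔠 := by
    have h1 : sg σ d ∈ cj σ (Ideal.span {(R : 𝓞 M)} * cj σ 𝔠) := Ideal.mem_map_of_mem (sg σ) hd
    rwa [T.cj_mul, hspR, T.cj_cj] at h1
  have hy'1 : y' - 1 = sg σ d := by
    rw [hy', hy, map_add, map_one]
    ring
  obtain ⟨hsd1, hsd2⟩ := mem_both hsd
  have hy'c : y' - 1 ∈ 𝔠 := by
    rw [hy'1]
    exact hsd2
  have hy'f : y' - 1 ∈ 𝔣 := by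
    rw [hy'1]
    exact hRf' hsd1
  have hy'q : IsCoprime (Ideal.span {y'}) (up M q) := by
    obtain ⟨i, hi, j, hj, hij⟩ := Ideal.isCoprime_iff_exists.1 hyq
    rw [Ideal.isCoprime_iff_exists]
    refine ⟨sg σ i, ?_, sg σ j, ?_, ?_⟩
    · rw [hy', ← T.cj_span]
      exact Ideal.mem_map_of_mem (sg σ) hi
    · rw [← T.cj_up q]
      exact Ideal.mem_map_of_mem (sg σ) hj
    · rw [← map_add, hij, map_one]
  have hy'fq : IsCoprime (Ideal.span {y'}) (𝔣 * up M q) :=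
    IsCoprime.mul_right (cop_one hy'f) hy'q
  have hy'0 : y' ≠ 0 := ne_zero_of_cop hct (cop_one hy'c)
  have e2 : ψ (Ideal.span {y'}) = chI χ (Nm (Ideal.span {y})) := by
    rw [hψφ _ hy'fq, hφr y' hy'0 hy'f, one_mul, hy', ← T.cj_span, hR.nm4]
  have e3 : ψ (Ideal.span {y'}) = 1 := hψr y' hy'0 hy'c
  apply hx3
  rw [← hψy, e1, ← e2, e3]

end Pool.Agent.Y185.D4
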